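import Pool.Agent.Y600.FB.Stm4

/-!
Task FB-PRIM4 for helper600 (helper409): the search predicate with oracle algorithms is primitive
recursive (adapted from Y459/FB/Search.lean)
-/

namespace Pool.Agent.Y409.FB

open Function Pool.Agent.NPC Pool.Agent.H660R2.NX Pool.Agent.H593R3.FBC Pool.Agent.Y600.FB
open Pool.Agent.H639R2.NTP.C5 (allL mem_allL primrec_allL primrec_pairBits primrec_replicate)

attribute [local irreducible] unpair

theorem prim_dec {α : Type} [Primcodable α] {p : α → Prop} (hp : PrimrecPred p)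
    (D : DecidablePred p) : Primrec (fun a => @decide (p a) (D a)) := by
  obtain ⟨D', h⟩ := hp
  refine h.of_eq fun a => ?_
  congr

theorem prim_stT {α : Type} [Primcodable α] {z s y a : α → List Bool} {k : α → ℕ}
    (hz : Primrec z) (hk : Primrec k) (hs : Primrec s) (hy : Primrec y) (ha : Primrec a) :
    Primrec (fun v => stT (z v) (k v) (s v) (y v) (a v)) := by
  have h1 : Primrec (fun v => FU (z v) (k v) (pairBits (y v) (a v))) :=
    prim_FU hz hk (prim_pair hy ha)
  have h2 : Primrec (fun v => (FU (z v) (k v) (pairBits (y v) (a v))).tail) :=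
    Primrec.list_tail.comp h1
  have h3 : PrimrecPred (fun v => KS (s v) (FU (z v) (k v) (pairBits (y v) (a v))).tail) :=
    prim_KS hs h2
  have h4 : PrimrecPred (fun v => (FU (z v) (k v) (pairBits (y v) (a v))).head? = some false) :=
    PrimrecRel.comp Primrec.eq (Primrec.list_head?.comp h1) (Primrec.const (some false))
  unfold stT
  exact Primrec.ite h4 (Primrec.list_append.comp ha
    (Primrec.list_cons.comp (prim_dec h3 _) (Primrec.const []))) ha

theorem prim_anT {α : Type} [Primcodable α] {z s y : α → List Bool} {k i : α → ℕ}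
    (hz : Primrec z) (hk : Primrec k) (hs : Primrec s) (hy : Primrec y) (hi : Primrec i) :
    Primrec (fun v => anT (z v) (k v) (s v) (y v) (i v)) := by
  unfold anT
  exact Primrec.nat_iterate (h := fun v a => stT (z v) (k v) (s v) (y v) a) hi (Primrec.const [])
    (prim_stT (hz.comp Primrec.fst) (hk.comp Primrec.fst) (hs.comp Primrec.fst)
      (hy.comp Primrec.fst) Primrec.snd).to₂

theorem prim_W4 {α : Type} [Primcodable α] {x N : α → ℕ} {z s w : α → List Bool}
    (hx : Primrec x) (hz : Primrec z) (hs : Primrec s) (hw : Primrec w) (hN : Primrec N) :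
    PrimrecPred (fun a => W4 (x a) (z a) (s a) (w a) (N a)) := by
  unfold W4
  have h1 : Primrec (fun v : List Bool => bits (gI (decF v))) :=
    prim_bits (poly_gI.comp poly_decF)
  have hy : Primrec (fun a => bits (gI (decF (w a)))) := h1.comp hw
  have hL : Primrec (fun a => (bits (gI (decF (w a)))).length ^ x a + x a) :=
    Primrec.nat_add.comp (Pool.Agent.H639R2.NTP.primrec_pow.comp (Primrec.list_length.comp hy)
      hx) hx
  have h5 : PrimrecRel (fun (i : ℕ) (q : List Bool × ℕ × List Bool × List Bool × ℕ) =>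
      nsB (FU q.1 q.2.1 (pairBits q.2.2.2.1
        (anT q.1 q.2.1 q.2.2.1 q.2.2.2.1 i))).tail (List.replicate q.2.2.2.2 true) = true) := by
    have p1 : Primrec (fun p : ℕ × (List Bool × ℕ × List Bool × List Bool × ℕ) => p.2.1) :=
      Primrec.fst.comp Primrec.snd
    have p2 : Primrec (fun p : ℕ × (List Bool × ℕ × List Bool × List Bool × ℕ) => p.2.2.1) :=
      Primrec.fst.comp (Primrec.snd.comp Primrec.snd)
    have p3 : Primrec (fun p : ℕ × (List Bool × ℕ × List Bool × List Bool × ℕ) => p.2.2.2.1) :=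
      Primrec.fst.comp (Primrec.snd.comp (Primrec.snd.comp Primrec.snd))
    have p4 : Primrec (fun p : ℕ × (List Bool × ℕ × List Bool × List Bool × ℕ) =>
        p.2.2.2.2.1) :=
      Primrec.fst.comp (Primrec.snd.comp (Primrec.snd.comp (Primrec.snd.comp Primrec.snd)))
    have p5 : Primrec (fun p : ℕ × (List Bool × ℕ × List Bool × List Bool × ℕ) =>
        p.2.2.2.2.2) :=
      Primrec.snd.comp (Primrec.snd.comp (Primrec.snd.comp (Primrec.snd.comp Primrec.snd)))
    exact prim_nsB (Primrec.list_tail.comp (prim_FU p1 p2 (prim_pair p4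
      (prim_anT p1 p2 p3 p4 Primrec.fst)))) p5
  have h6 := (h5.forall_mem_list).comp
    (f := fun a => List.range ((bits (gI (decF (w a)))).length ^ x a + x a))
    (g := fun a => (z a, x a, s a, bits (gI (decF (w a))), N a))
    (Primrec.list_range.comp hL)
    (Primrec.pair hz (Primrec.pair hx (Primrec.pair hs (Primrec.pair hy hN))))
  have h7 := PrimrecRel.comp Primrec.eq (prim_FU hz hx (prim_pair hy (prim_anT hz hx hs hy hL)))
    (Primrec.const [true, true])
  exact (prim_bd hw).and ((PrimrecRel.comp Primrec.nat_le hx (prim_nn hw)).and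
    ((PrimrecRel.comp Primrec.nat_lt (prim_nn hw) hN).and
      (h6.and (Pool.Agent.H593R3.FBC.PrimrecPred.iff h7 (prim_sat hw).not))))

theorem t_PRIM4 : Pool.Agent.Y600.FB.S_PRIM4 := by
  unfold S_PRIM4 G4
  have h1 : PrimrecRel (fun (v : ℕ) (q : List Bool × ℕ × ℕ × ℕ) =>
      W4 q.2.2.1 (str q.2.1) q.1 (str v) q.2.2.2) :=
    prim_W4 (Primrec.fst.comp (Primrec.snd.comp (Primrec.snd.comp Primrec.snd)))
      (prim_strN.comp (Primrec.fst.comp (Primrec.snd.comp Primrec.snd)))
      (Primrec.fst.comp Primrec.snd) (prim_strN.comp Primrec.fst)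
      (Primrec.snd.comp (Primrec.snd.comp (Primrec.snd.comp Primrec.snd)))
  have h2 : PrimrecRel (fun (s : List Bool) (q : ℕ × ℕ × ℕ) => ∃ v ∈ List.range q.2.2,
      W4 q.2.1 (str q.1) s (str v) q.2.2) :=
    (h1.exists_mem_list).comp (f := fun q : List Bool × ℕ × ℕ × ℕ => List.range q.2.2.2)
      (g := fun q => q)
      (Primrec.list_range.comp (Primrec.snd.comp (Primrec.snd.comp Primrec.snd))) Primrec.id
  have h3 : PrimrecRel (fun (j : ℕ) (p : ℕ × ℕ) => ∀ s ∈ allL p.1, ∃ v ∈ List.range p.2,
      W4 p.1 (str j) s (str v) p.2) :=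
    (h2.forall_mem_list).comp (f := fun q : ℕ × ℕ × ℕ => allL q.2.1)
      (g := fun q => q) (primrec_allL.comp (Primrec.fst.comp Primrec.snd)) Primrec.id
  exact (h3.forall_mem_list).comp (f := fun p : ℕ × ℕ => List.range p.1) (g := fun p => p)
    (Primrec.list_range.comp Primrec.fst) Primrec.id

end Pool.Agent.Y409.FB
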